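import Pool.Agent.helper52.FS.SpecP

/-!
# MP_07c750, project FS, row CAU: the Cauchy transform of a windowed exponential sum
-/

open MeasureTheory Set

set_option autoImplicit false

namespace Pool.Agent.FS

noncomputable section

theorem CAU_term (hRHO : RHO_stmt) (β : ℂ) (l : ℝ) : Integrable fun t : ℝ => (rho t : ℂ) * (β * ee (l * t)) := by
  have h1 : Integrable fun t : ℝ => (rho t : ℂ) := hRHO.ig.ofReal
  have h2 : Continuous fun t : ℝ => β * ee (l * t) := by
    unfold ee
    fun_prop
  refine h1.mul_bdd (c := ‖β‖) h2.aestronglyMeasurable (Filter.Eventually.of_forall fun t => ?_)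
  rw [norm_mul]
  have h3 : ‖ee (l * t)‖ = 1 := by
    unfold ee
    exact Complex.norm_exp_ofReal_mul_I _
  rw [h3, mul_one]

theorem CAU_int (hRHO : RHO_stmt) (S : Finset ℤ) (b : ℤ → ℂ) (lam : ℤ → ℝ) : Integrable (qq S b lam) := by
  have h1 : qq S b lam = fun t => ∑ k ∈ S, (rho t : ℂ) * (b k * ee (lam k * t)) := by
    funext t
    unfold qq
    rw [Finset.mul_sum]
  rw [h1]
  exact integrable_finsetSum _ fun k _ => CAU_term hRHO (b k) (lam k)

theorem CAU_up (hRHO : RHO_stmt) (hRRW : RRW_stmt) (S : Finset ℤ) (b : ℤ → ℂ) (lam : ℤ → ℝ) (z : ℂ) (hz : 0 < z.im) :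
    CC S b lam z = Complex.I * ∫ t in Ioi (0 : ℝ), Complex.exp (Complex.I * t * z) * qq S b lam (-t) := by
  have h1 : ∀ k ∈ S, b k * RR (z - (lam k : ℂ)) =
      Complex.I * ∫ t in Ioi (0 : ℝ), b k * (Complex.exp (Complex.I * t * (z - (lam k : ℂ))) * (rho t : ℂ)) := by
    intro k _
    rw [(hRRW.2.1 (z - (lam k : ℂ)) (by simpa using hz)).2, integral_const_mul]
    ring
  unfold CC
  rw [Finset.sum_congr rfl h1, ← Finset.mul_sum, ← integral_finsetSum]
  · congr 1
    refine integral_congr_ae (Filter.Eventually.of_forall fun t => ?_)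
    show ∑ k ∈ S, b k * (Complex.exp (Complex.I * t * (z - (lam k : ℂ))) * (rho t : ℂ)) = Complex.exp (Complex.I * t * z) * qq S b lam (-t)
    unfold qq ee
    rw [hRHO.ev, Finset.mul_sum, Finset.mul_sum]
    refine Finset.sum_congr rfl fun k _ => ?_
    have h2 : Complex.exp (Complex.I * t * (z - (lam k : ℂ))) =
        Complex.exp (Complex.I * t * z) * Complex.exp (((lam k * -t : ℝ) : ℂ) * Complex.I) := by
      rw [← Complex.exp_add]
      congr 1
      push_cast
      ring
    rw [h2]
    ring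
  · intro k _
    exact ((hRRW.2.1 (z - (lam k : ℂ)) (by simpa using hz)).1).const_mul (b k)

theorem CAU_dn (hRRW : RRW_stmt) (S : Finset ℤ) (b : ℤ → ℂ) (lam : ℤ → ℝ) (z : ℂ) (hz : z.im < 0) :
    CC S b lam z = -(Complex.I * ∫ t in Ioi (0 : ℝ), Complex.exp (-(Complex.I * t * z)) * qq S b lam t) := by
  have h1 : ∀ k ∈ S, b k * RR (z - (lam k : ℂ)) =
      (-Complex.I) * ∫ t in Ioi (0 : ℝ), b k * (Complex.exp (-(Complex.I * t * (z - (lam k : ℂ)))) * (rho t : ℂ)) := by
    intro k _
    rw [(hRRW.2.2 (z - (lam k : ℂ)) (by simpa using hz)).2, integral_const_mul]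
    ring
  unfold CC
  rw [Finset.sum_congr rfl h1, ← Finset.mul_sum, ← integral_finsetSum, neg_mul]
  · congr 2
    refine integral_congr_ae (Filter.Eventually.of_forall fun t => ?_)
    show ∑ k ∈ S, b k * (Complex.exp (-(Complex.I * t * (z - (lam k : ℂ)))) * (rho t : ℂ)) = Complex.exp (-(Complex.I * t * z)) * qq S b lam t
    unfold qq ee
    rw [Finset.mul_sum, Finset.mul_sum]
    refine Finset.sum_congr rfl fun k _ => ?_
    have h2 : Complex.exp (-(Complex.I * t * (z - (lam k : ℂ)))) =
        Complex.exp (-(Complex.I * t * z)) * Complex.exp (((lam k * t : ℝ) : ℂ) * Complex.I) := by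
      rw [← Complex.exp_add]
      congr 1
      push_cast
      ring
    rw [h2]
    ring
  · intro k _
    exact ((hRRW.2.2 (z - (lam k : ℂ)) (by simpa using hz)).1).const_mul (b k)

theorem CAU_bd {f E : ℝ → ℂ} {c L Y : ℝ} (hf : Integrable f) (hc : 0 ≤ c) (hY : 0 ≤ Y) (hYL : Y ≤ L) (hE : ∀ t, ‖E t‖ = Real.exp (-(t * Y))) :
    ‖∫ t in Ioi (0 : ℝ), E t * f t‖ ≤ ((∫ t, ‖f t‖) + Real.exp (c * L) * ∫ t in Icc (-c) c, ‖f t‖) * Real.exp (-(c * Y)) := by
  have h1 : Integrable fun t => (‖f t‖ + Real.exp (c * L) * (Icc (-c) c).indicator (fun t => ‖f t‖) t) * Real.exp (-(c * Y)) :=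
    (hf.norm.add ((hf.norm.indicator measurableSet_Icc).const_mul _)).mul_const _
  have h2 : ∀ t : ℝ, 0 ≤ (‖f t‖ + Real.exp (c * L) * (Icc (-c) c).indicator (fun t => ‖f t‖) t) * Real.exp (-(c * Y)) := by
    intro t
    have h3 : 0 ≤ (Icc (-c) c).indicator (fun t => ‖f t‖) t := indicator_nonneg (fun _ _ => norm_nonneg _) _
    positivity
  calc ‖∫ t in Ioi (0 : ℝ), E t * f t‖ ≤ ∫ t in Ioi (0 : ℝ), (‖f t‖ + Real.exp (c * L) * (Icc (-c) c).indicator (fun t => ‖f t‖) t) * Real.exp (-(c * Y)) := by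
        refine norm_integral_le_of_norm_le h1.integrableOn ?_
        filter_upwards [ae_restrict_mem measurableSet_Ioi] with t ht
        rw [norm_mul, hE]
        rcases le_or_gt t c with h3 | h3
        · rw [indicator_of_mem (show t ∈ Icc (-c) c from ⟨by linarith [mem_Ioi.1 ht], h3⟩)]
          have h4 : Real.exp (-(t * Y)) ≤ Real.exp (c * L) * Real.exp (-(c * Y)) := by
            rw [← Real.exp_add]
            apply Real.exp_le_exp.2
            have h5 : 0 ≤ t * Y := mul_nonneg (mem_Ioi.1 ht).le hY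
            nlinarith [mul_le_mul_of_nonneg_left hYL hc]
          have h6 : 0 ≤ ‖f t‖ * Real.exp (-(c * Y)) := by positivity
          nlinarith [mul_le_mul_of_nonneg_right h4 (norm_nonneg (f t))]
        · have h4 : Real.exp (-(t * Y)) ≤ Real.exp (-(c * Y)) := by
            apply Real.exp_le_exp.2
            nlinarith [mul_le_mul_of_nonneg_right h3.le hY]
          have h5 : 0 ≤ (Icc (-c) c).indicator (fun t => ‖f t‖) t := indicator_nonneg (fun _ _ => norm_nonneg _) _
          have h6 : 0 ≤ Real.exp (c * L) * (Icc (-c) c).indicator (fun t => ‖f t‖) t * Real.exp (-(c * Y)) := by positivity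
          nlinarith [mul_le_mul_of_nonneg_right h4 (norm_nonneg (f t))]
    _ ≤ ∫ t : ℝ, (‖f t‖ + Real.exp (c * L) * (Icc (-c) c).indicator (fun t => ‖f t‖) t) * Real.exp (-(c * Y)) :=
        setIntegral_le_integral h1 (Filter.Eventually.of_forall h2)
    _ = ((∫ t, ‖f t‖) + Real.exp (c * L) * ∫ t in Icc (-c) c, ‖f t‖) * Real.exp (-(c * Y)) := by
        rw [integral_mul_const, integral_add hf.norm ((hf.norm.indicator measurableSet_Icc).const_mul _), integral_const_mul, integral_indicator measurableSet_Icc]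

theorem CAU_neg (c : ℝ) (g : ℝ → ℝ) : ∫ t in Icc (-c) c, g (-t) = ∫ t in Icc (-c) c, g t := by
  rw [← integral_indicator measurableSet_Icc, ← integral_indicator measurableSet_Icc, ← integral_neg_eq_self]
  refine integral_congr_ae (Filter.Eventually.of_forall fun t => ?_)
  show (Icc (-c) c).indicator (fun t => g (-t)) (-t) = (Icc (-c) c).indicator (fun t => g t) t
  by_cases h : t ∈ Icc (-c) c
  · rw [indicator_of_mem h, indicator_of_mem (show -t ∈ Icc (-c) c from ⟨by linarith [h.2], by linarith [h.1]⟩), neg_neg]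
  · rw [indicator_of_notMem h, indicator_of_notMem (fun h2 => h ⟨by linarith [h2.2], by linarith [h2.1]⟩)]

theorem CAU_proof (hRHO : RHO_stmt) (hRRW : RRW_stmt) : CAU_stmt := by
  intro S b lam
  refine ⟨CAU_int hRHO S b lam, fun z hz => ?_, fun c L z hc hz hL => ?_, ?_⟩
  · unfold CC
    refine DifferentiableAt.fun_sum fun k hk => DifferentiableAt.const_mul ?_ (b k)
    have h1 : DifferentiableAt ℂ RR (z - (lam k : ℂ)) := by
      apply hRRW.1
      simpa using hz k hk
    exact DifferentiableAt.comp (g := RR) (f := fun z : ℂ => z - (lam k : ℂ)) z h1 (differentiableAt_id.sub_const _)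
  · have hi := CAU_int hRHO S b lam
    rcases lt_or_gt_of_ne hz with h | h
    · rw [abs_of_neg h] at hL ⊢
      rw [CAU_dn hRRW S b lam z h, norm_neg, norm_mul, Complex.norm_I, one_mul]
      refine CAU_bd hi hc (by linarith) hL fun t => ?_
      rw [Complex.norm_exp]
      congr 1
      simp
    · rw [abs_of_pos h] at hL ⊢
      rw [CAU_up hRHO hRRW S b lam z h, norm_mul, Complex.norm_I, one_mul]
      have h1 := CAU_bd (f := fun t => qq S b lam (-t)) (E := fun t => Complex.exp (Complex.I * t * z)) (c := c) (L := L) (Y := z.im)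
        hi.comp_neg hc h.le hL fun t => by
          rw [Complex.norm_exp]
          congr 1
          simp
      rw [integral_neg_eq_self (fun t => ‖qq S b lam t‖), CAU_neg c (fun t => ‖qq S b lam t‖)] at h1
      exact h1
  · rw [CAU_up hRHO hRRW S b lam Complex.I (by simp)]
    congr 1
    refine integral_congr_ae (Filter.Eventually.of_forall fun t => ?_)
    show Complex.exp (Complex.I * t * Complex.I) * qq S b lam (-t) = (Real.exp (-t) : ℂ) * qq S b lam (-t)
    congr 1
    rw [Complex.ofReal_exp]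
    congr 1
    push_cast
    rw [mul_right_comm, Complex.I_mul_I]
    ring

end

end Pool.Agent.FS
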