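import Pool.Agent.helper78.FS.Spec

/-!
# Row NB3 of project fs (MP_55808c_co): degrees of the cluster graph
-/

set_option autoImplicit false

namespace Pool.Agent.helper78.FS

open Finset Real

noncomputable section

theorem NB3 : NB3_stmt := by
  classical
  intro h1 hP ε r c Q R φ η hε hD hR hη0 hη1 v S hS
  obtain ⟨n1, n2, n3, n4⟩ := h1 ε r c Q R φ hε hD hR
  obtain ⟨hε0, hG, hR1, hQ, hSi⟩ := hD
  -- the blobs
  have hb : (S.filter (fun w => blob r Q R φ w)).card ≤ Q.card := by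
    have ex : ∀ w, ∃ q : E3, blob r Q R φ w → q ∈ Q ∧ ∃ x : E3, ‖x‖ = r ∧ dist x q < R ∧ φ x = w := by
      intro w
      by_cases hw : blob r Q R φ w
      · obtain ⟨x, hx, ⟨q, hq, hxq⟩, hφ⟩ := hw
        exact ⟨q, fun _ => ⟨hq, x, hx, hxq, hφ⟩⟩
      · exact ⟨0, fun h => absurd h hw⟩
    choose f hf using ex
    refine Finset.card_le_card_of_injOn f ?_ ?_
    · intro w hw
      exact (hf w (Finset.mem_filter.1 hw).2).1
    · intro w hw w' hw' he
      obtain ⟨-, x, hx, hxq, hφ⟩ := hf w (Finset.mem_filter.1 hw).2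
      obtain ⟨hq', x', hx', hxq', hφ'⟩ := hf w' (Finset.mem_filter.1 hw').2
      rw [he] at hxq
      rw [← hφ, ← hφ']
      exact (hR.1 x x').2 (Or.inr ⟨hx, hx', Or.inl ⟨f w', hq', hxq, hxq'⟩⟩)
  -- the others
  have ex2 : ∀ w, ∃ x y : E3, w ∈ S → ‖x‖ = r ∧ ‖y‖ = r ∧ φ x = v ∧ φ y = w ∧ dist x y ≤ η := by
    intro w
    by_cases hw : w ∈ S
    · obtain ⟨-, x, y, h⟩ := hS w hw
      exact ⟨x, y, fun _ => h⟩
    · exact ⟨0, 0, fun h => absurd h hw⟩
  choose X Y hXY using ex2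
  have hc : ∀ k : Fin 7, ((S.filter (fun w => ¬ blob r Q R φ w)).filter (fun w => c w = k)).card
      ≤ (⌈4 * (2 * R + 1)⌉₊ + 2) ^ 3 := by
    intro k
    set T := (S.filter (fun w => ¬ blob r Q R φ w)).filter (fun w => c w = k) with hT
    rcases T.eq_empty_or_nonempty with h0 | ⟨w0, hw0⟩
    · rw [h0, Finset.card_empty]
      exact Nat.zero_le _
    · have hmem : ∀ w ∈ T, w ∈ S ∧ ¬ blob r Q R φ w ∧ c w = k := by
        intro w hw
        have h2 := Finset.mem_filter.1 hw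
        have h3 := Finset.mem_filter.1 h2.1
        exact ⟨h3.1, h3.2, h2.2⟩
      have hinj : Set.InjOn Y (T : Set E3) := by
        intro w hw w' hw' he
        have e1 := (hXY w (hmem w hw).1).2.2.2.1
        have e2 := (hXY w' (hmem w' hw').1).2.2.2.1
        rw [← e1, ← e2, he]
      have h4 := hP (X w0) (2 * R + 1) 1 (by linarith) one_pos (T.image Y) (by
        intro p hp
        obtain ⟨w, hw, rfl⟩ := Finset.mem_image.1 hp
        obtain ⟨a1, a2, a3, a4, a5⟩ := hXY w (hmem w hw).1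
        obtain ⟨b1, b2, b3, b4, b5⟩ := hXY w0 (hmem w0 hw0).1
        have h5 := n2 (X w) (X w0) a1 (by rw [a3, b3])
        calc dist (Y w) (X w0) ≤ dist (Y w) (X w) + dist (X w) (X w0) := dist_triangle _ _ _
          _ ≤ 1 + 2 * R := by
            rw [dist_comm (Y w)]
            linarith
          _ = 2 * R + 1 := by ring) (by
        intro p hp q hq hpq
        obtain ⟨w, hw, rfl⟩ := Finset.mem_image.1 hp
        obtain ⟨w', hw', rfl⟩ := Finset.mem_image.1 hq
        obtain ⟨a1, a2, a3, a4, a5⟩ := hXY w (hmem w hw).1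
        obtain ⟨b1, b2, b3, b4, b5⟩ := hXY w' (hmem w' hw').1
        by_contra hlt
        have hlt' := not_le.1 hlt
        apply hpq
        have c1 := n3 (Y w) a2 (by rw [a4]; exact (hmem w hw).2.1)
        have c2 := n3 (Y w') b2 (by rw [b4]; exact (hmem w' hw').2.1)
        have hcc : c (Y w) = c (Y w') := by
          rw [← c1.1, ← c2.1, a4, b4, (hmem w hw).2.2, (hmem w' hw').2.2]
        have h6 : φ (Y w) = φ (Y w') := (hR.1 _ _).2 (Or.inr ⟨a2, b2, Or.inr ⟨c1.2, c2.2, hcc, hlt'⟩⟩)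
        rw [a4, b4] at h6
        rw [h6])
      rw [Finset.card_image_of_injOn hinj, div_one] at h4
      exact h4
  have hnb : (S.filter (fun w => ¬ blob r Q R φ w)).card ≤ 7 * (⌈4 * (2 * R + 1)⌉₊ + 2) ^ 3 := by
    rw [Finset.card_eq_sum_card_fiberwise (f := c) (t := Finset.univ) (fun _ _ => Finset.mem_univ _)]
    calc ∑ k : Fin 7, ((S.filter (fun w => ¬ blob r Q R φ w)).filter (fun w => c w = k)).card
        ≤ ∑ _k : Fin 7, (⌈4 * (2 * R + 1)⌉₊ + 2) ^ 3 := Finset.sum_le_sum fun k _ => hc k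
      _ = 7 * (⌈4 * (2 * R + 1)⌉₊ + 2) ^ 3 := by
        rw [Finset.sum_const, Finset.card_univ, Fintype.card_fin, smul_eq_mul]
  have hsplit := Finset.card_filter_add_card_filter_not (s := S) (fun w => blob r Q R φ w)
  omega

end

end Pool.Agent.helper78.FS
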