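import Pool.Agent.helper87.FS.Spec

/-!
# FS: ORT
-/

set_option autoImplicit false

namespace Pool.Agent.FS

open Polynomial Matrix Pool.Agent.helper42.NS

theorem ORT : ORT_stmt := by
  intro K _ t k u hu
  have h1 := T_KIL K t (Submodule.span K {u}) k
  rw [finrank_span_singleton hu, pow_one] at h1
  have h2 : Set.ncard {W : Fin k → Fin t → Bool | ∀ i, dotb (W i) u = 0} ≤
      Set.ncard {B : Fin k → Fin t → Bool | ∃ v ∈ Submodule.span K {u}, v ≠ 0 ∧
        ∀ i, dotb (B i) v = 0} := by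
    refine Set.ncard_le_ncard ?_ (Set.toFinite _)
    intro W hW
    exact ⟨u, Submodule.mem_span_singleton_self u, hu, hW⟩
  calc Set.ncard {W : Fin k → Fin t → Bool | ∀ i, dotb (W i) u = 0} * 2 ^ k ≤
      Set.ncard {B : Fin k → Fin t → Bool | ∃ v ∈ Submodule.span K {u}, v ≠ 0 ∧
        ∀ i, dotb (B i) v = 0} * 2 ^ k := Nat.mul_le_mul_right _ h2
    _ ≤ (2 - 1) * 2 ^ (t * k) := h1
    _ = 2 ^ (t * k) := by rw [show (2 - 1 : ℕ) = 1 from rfl, one_mul]

end Pool.Agent.FS
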